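import Pool.Agent.X141.Lamp

/-!
# MP_ffcf77_al, Q1: no

A finitely generated group `G = ⟨S⟩` and a word `w` (in four variables) such that the lazy random
walk with steps uniform on `S ∪ {1}` satisfies `w` with probability one at every time `n`, although
`w` is not a law of `G`.
-/

set_option autoImplicit false

namespace Pool.Agent.Results.MP_ffcf77_al.WordHoldsNotLaw

open Filter Topology Pool.Agent.X141.Lamp

open Classical in
/-- `p_n(w)`: the probability that `w` is satisfied by `d` independent copies of
`R_n = s_1 s_2 ⋯ s_n`, the `s_i` being independent and uniform on `S ∪ {1}`. -/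
noncomputable def prob {G : Type} [Group G] (S : Finset G) {d : ℕ} (w : FreeGroup (Fin d))
    (n : ℕ) : ℝ :=
  ((Finset.univ.filter fun s : Fin d → Fin n → ↥(insert 1 S) =>
      FreeGroup.lift (fun i => (List.ofFn fun j => (s i j : G)).prod) w = 1).card : ℝ) /
    (Fintype.card (Fin d → Fin n → ↥(insert 1 S)) : ℝ)

/-- The generators inside the wreath product: toggle the lamp by `k`, then move right. -/
abbrev GG : Subgroup (W (Equiv.Perm (Fin 3))) :=
  Subgroup.closure (Set.range (step (K := Equiv.Perm (Fin 3))))

/-- The generators as elements of the group they generate. -/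
def gen (k : Equiv.Perm (Fin 3)) : GG := ⟨step k, Subgroup.subset_closure ⟨k, rfl⟩⟩

open Classical in
/-- The finite generating set. -/
noncomputable def SS : Finset GG := Finset.univ.image gen

theorem SS_generates : Subgroup.closure (SS : Set GG) = ⊤ := by
  have h : (SS : Set GG) = ((↑) : GG → W (Equiv.Perm (Fin 3))) ⁻¹' (Set.range step) := by
    ext x
    simp only [SS, Finset.coe_image, Finset.coe_univ, Set.image_univ, Set.mem_range,
      Set.mem_preimage]
    constructor
    · rintro ⟨k, rfl⟩
      exact ⟨k, rfl⟩
    · rintro ⟨k, hk⟩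
      exact ⟨k, Subtype.ext hk⟩
  rw [h]
  exact Subgroup.closure_closure_coe_preimage

open Classical in
theorem prob_eq_one {G : Type} [Group G] (S : Finset G) {d : ℕ} (w : FreeGroup (Fin d))
    (h : ∀ g : Fin d → G, (∀ i, g i ∈ Submonoid.closure (S : Set G)) → FreeGroup.lift g w = 1)
    (n : ℕ) : prob S w n = 1 := by
  unfold prob
  rw [Finset.filter_true_of_mem, Finset.card_univ]
  · have : Nonempty (Fin d → Fin n → ↥(insert 1 S)) :=
      ⟨fun _ _ => ⟨1, Finset.mem_insert_self _ _⟩⟩
    exact div_self (by exact_mod_cast Fintype.card_ne_zero)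
  · intro s _
    apply h
    intro i
    apply Submonoid.list_prod_mem
    intro x hx
    rw [List.mem_ofFn] at hx
    obtain ⟨j, rfl⟩ := hx
    have h2 := (s i j).2
    rw [Finset.mem_insert] at h2
    rcases h2 with h2 | h2
    · rw [h2]
      exact Submonoid.one_mem _
    · exact Submonoid.subset_closure h2

theorem isPos_of_mem (x : GG) (hx : x ∈ Submonoid.closure (SS : Set GG)) :
    IsPos (x : W (Equiv.Perm (Fin 3))) := by
  induction hx using Submonoid.closure_induction with
  | mem x hx =>
    simp only [SS, Finset.coe_image, Finset.coe_univ, Set.image_univ, Set.mem_range] at hx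
    obtain ⟨k, rfl⟩ := hx
    exact step_isPos k
  | one => exact isPos_one
  | mul x y _ _ hx hy => exact hx.mul hy

/-- **MP_ffcf77_al, Q1 is false.** There are `d`, a word `w ∈ F_d` and a group `G` generated by a
finite set `S` such that `p_n(w) = 1` for every `n` (in particular `p_n(w) → 1`) for the lazy random
walk, and `w` is not a law of `G`. -/
theorem result : ∃ (d : ℕ) (w : FreeGroup (Fin d)) (G : Type) (_ : Group G) (S : Finset G),
    1 ≤ d ∧ Subgroup.closure (S : Set G) = ⊤ ∧ (∀ n, prob S w n = 1) ∧
    Tendsto (prob S w) atTop (𝓝 1) ∧ ∃ g : Fin d → G, FreeGroup.lift g w ≠ 1 := by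
  have hprob : ∀ n, prob SS word n = 1 := by
    apply prob_eq_one
    intro g hg
    apply Subtype.ext
    have h1 := lift_word_eq_one_of_isPos
      (fun i => ((g i : GG) : W (Equiv.Perm (Fin 3)))) (fun i => isPos_of_mem _ (hg i))
    rw [lift_word] at h1 ⊢
    exact h1
  refine ⟨4, word, GG, inferInstance, SS, by norm_num, SS_generates, hprob, ?_, ?_⟩
  · have : prob SS word = fun _ => 1 := funext hprob
    rw [this]
    exact tendsto_const_nhds
  · -- lamps and the shift belong to the group
    have hstep : ∀ k : Equiv.Perm (Fin 3), step k ∈ GG := fun k => Subgroup.subset_closure ⟨k, rfl⟩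
    have hshift : shift ∈ GG := by
      rw [← step_one]
      exact hstep 1
    have hlamp : ∀ k : Equiv.Perm (Fin 3), lampAt k ∈ GG := by
      intro k
      rw [lampAt_eq]
      exact GG.mul_mem (hstep k) (GG.inv_mem (hstep 1))
    let a : Equiv.Perm (Fin 3) := Equiv.swap 0 1
    let b : Equiv.Perm (Fin 3) := Equiv.swap 1 2
    have hab : a * b ≠ b * a := by decide
    refine ⟨![⟨lampAt a, hlamp a⟩, ⟨shift, hshift⟩, ⟨lampAt b, hlamp b⟩, ⟨shift⁻¹,
      GG.inv_mem hshift⟩], fun h => word_nontrivial a b hab ?_⟩
    have h2 := congrArg (fun z : GG => (z : W (Equiv.Perm (Fin 3)))) h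
    rw [lift_word] at h2 ⊢
    exact h2

end Pool.Agent.Results.MP_ffcf77_al.WordHoldsNotLaw
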